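import Mathlib
import Pool.Agent.H43.G.R_seed8.H410R2.Iface3

/-! Module M, part 1: sums over coloured squarefree numbers versus products of one-dimensional sums. -/

namespace Pool.Agent.H410R2

open Finset

section tuple
variable {ι J : Type} [Fintype ι] [DecidableEq ι] [Fintype J] [DecidableEq J]

/-- fibre of a colour -/
def fib (σ : ι → Option J) (j : J) : Finset ι := univ.filter (fun t => σ t = some j)

@[simp] theorem mem_fib (σ : ι → Option J) (j : J) (t : ι) : t ∈ fib σ j ↔ σ t = some j := by
  simp [fib]

theorem fib_injective : Function.Injective (fib : (ι → Option J) → J → Finset ι) := by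
  intro σ τ h
  have key : ∀ t j, σ t = some j ↔ τ t = some j := by
    intro t j
    rw [← mem_fib, ← mem_fib, congrFun h j]
  funext t
  cases hs : σ t with
  | none =>
    cases ht : τ t with
    | none => rfl
    | some j => rw [(key t j).2 ht] at hs; exact absurd hs (by simp)
  | some j => exact ((key t j).1 hs).symm

theorem sum_tuple_eq (F : J → Finset ι → ℝ) :
    ∏ j, ∑ a : Finset ι, F j a = ∑ f : J → Finset ι, ∏ j, F j (f j) := by
  rw [Finset.prod_univ_sum]
  simp

theorem sum_tuple_le (F : J → Finset ι → ℝ) (hF : ∀ j a, 0 ≤ F j a) :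
    ∑ σ : ι → Option J, ∏ j, F j (fib σ j) ≤ ∏ j, ∑ a : Finset ι, F j a := by
  rw [sum_tuple_eq]
  have h1 : ∑ σ : ι → Option J, ∏ j, F j (fib σ j) =
      ∑ f ∈ univ.image (fib : (ι → Option J) → J → Finset ι), ∏ j, F j (f j) := by
    rw [Finset.sum_image]
    intro a _ b _ h
    exact fib_injective h
  rw [h1]
  apply Finset.sum_le_sum_of_subset_of_nonneg (Finset.subset_univ _)
  intro f _ _
  exact Finset.prod_nonneg (fun j _ => hF j _)

/-- a pairwise disjoint tuple is a colouring -/
theorem exists_of_disjoint (f : J → Finset ι) (h : ∀ j l t, t ∈ f j → t ∈ f l → j = l) :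
    ∃ σ : ι → Option J, fib σ = f := by
  classical
  refine ⟨fun t => if h : ∃ j, t ∈ f j then some h.choose else none, ?_⟩
  funext j
  ext t
  rw [mem_fib]
  constructor
  · intro ht
    split_ifs at ht with hex
    · have := hex.choose_spec
      rw [Option.some_inj] at ht
      rw [ht] at this
      exact this
  · intro ht
    have hex : ∃ j, t ∈ f j := ⟨j, ht⟩
    rw [dif_pos hex]
    rw [h _ _ t hex.choose_spec ht]

theorem sum_tuple_ge (F : J → Finset ι → ℝ) (hF : ∀ j a, 0 ≤ F j a) (β : ι → ℝ)
    (hβ : ∀ t, 0 ≤ β t)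
    (h : ∀ j t, ∑ a ∈ univ.filter (fun a => t ∈ a), F j a ≤ β t * ∑ a : Finset ι, F j a) :
    (1 - (Fintype.card J : ℝ) ^ 2 * ∑ t, β t ^ 2) * ∏ j, ∑ a : Finset ι, F j a ≤
      ∑ σ : ι → Option J, ∏ j, F j (fib σ j) := by
  classical
  set S : J → ℝ := fun j => ∑ a : Finset ι, F j a with hS
  have hS0 : ∀ j, 0 ≤ S j := fun j => Finset.sum_nonneg (fun a _ => hF j a)
  have h1 : ∑ σ : ι → Option J, ∏ j, F j (fib σ j) =
      ∑ f ∈ univ.image (fib : (ι → Option J) → J → Finset ι), ∏ j, F j (f j) := by
    rw [Finset.sum_image]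
    intro a _ b _ h
    exact fib_injective h
  have h2 : ∏ j, S j = ∑ f : J → Finset ι, ∏ j, F j (f j) := sum_tuple_eq F
  -- the complement
  have hcov : ∑ f : J → Finset ι, ∏ j, F j (f j) ≤
      ∑ f ∈ univ.image (fib : (ι → Option J) → J → Finset ι), ∏ j, F j (f j) +
      ∑ j : J, ∑ l : J, ∑ t : ι,
        ∑ f ∈ (univ : Finset (J → Finset ι)).filter (fun f => j ≠ l ∧ t ∈ f j ∧ t ∈ f l),
          ∏ m, F m (f m) := by
    set N := (univ : Finset (J → Finset ι)) \ univ.image (fib : (ι → Option J) → J → Finset ι)
      with hN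
    have e1 : ∑ f : J → Finset ι, ∏ j, F j (f j) =
        ∑ f ∈ univ.image (fib : (ι → Option J) → J → Finset ι), ∏ j, F j (f j) +
        ∑ f ∈ N, ∏ j, F j (f j) := by
      rw [add_comm, Finset.sum_sdiff (Finset.subset_univ _)]
    rw [e1]
    gcongr
    have e2 : ∀ f ∈ N, ∏ m, F m (f m) ≤ ∑ j : J, ∑ l : J, ∑ t : ι,
        (if (j ≠ l ∧ t ∈ f j ∧ t ∈ f l) then ∏ m, F m (f m) else 0) := by
      intro f hf
      have hnn : 0 ≤ ∏ m, F m (f m) := Finset.prod_nonneg (fun j _ => hF j _)
      have hex : ∃ j l t, j ≠ l ∧ t ∈ f j ∧ t ∈ f l := by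
        by_contra hcon
        push Not at hcon
        have : ∃ σ : ι → Option J, fib σ = f := by
          apply exists_of_disjoint
          intro j l t hj hl
          by_contra hne
          exact hcon j l t hne hj hl
        obtain ⟨σ, hσ⟩ := this
        rw [hN, Finset.mem_sdiff] at hf
        exact hf.2 (Finset.mem_image.2 ⟨σ, Finset.mem_univ _, hσ⟩)
      obtain ⟨j, l, t, hjlt⟩ := hex
      calc ∏ m, F m (f m) = (if (j ≠ l ∧ t ∈ f j ∧ t ∈ f l) then ∏ m, F m (f m) else 0) := by
            rw [if_pos hjlt]
        _ ≤ ∑ t : ι, (if (j ≠ l ∧ t ∈ f j ∧ t ∈ f l) then ∏ m, F m (f m) else 0) :=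
            Finset.single_le_sum (f := fun t => (if (j ≠ l ∧ t ∈ f j ∧ t ∈ f l) then
              ∏ m, F m (f m) else 0)) (fun t _ => by split_ifs <;> simp [hnn]) (Finset.mem_univ t)
        _ ≤ ∑ l : J, ∑ t : ι, (if (j ≠ l ∧ t ∈ f j ∧ t ∈ f l) then ∏ m, F m (f m) else 0) :=
            Finset.single_le_sum (f := fun l => ∑ t : ι, (if (j ≠ l ∧ t ∈ f j ∧ t ∈ f l) then
              ∏ m, F m (f m) else 0))
              (fun l _ => Finset.sum_nonneg fun t _ => by split_ifs <;> simp [hnn])
              (Finset.mem_univ l)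
        _ ≤ _ :=
            Finset.single_le_sum (f := fun j => ∑ l : J, ∑ t : ι, (if (j ≠ l ∧ t ∈ f j ∧ t ∈ f l)
              then ∏ m, F m (f m) else 0))
              (fun j _ => Finset.sum_nonneg fun l _ => Finset.sum_nonneg fun t _ => by
                split_ifs <;> simp [hnn])
              (Finset.mem_univ j)
    calc ∑ f ∈ N, ∏ m, F m (f m) ≤ ∑ f ∈ N, ∑ j : J, ∑ l : J, ∑ t : ι,
        (if (j ≠ l ∧ t ∈ f j ∧ t ∈ f l) then ∏ m, F m (f m) else 0) := Finset.sum_le_sum e2
      _ ≤ ∑ f : J → Finset ι, ∑ j : J, ∑ l : J, ∑ t : ι,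
        (if (j ≠ l ∧ t ∈ f j ∧ t ∈ f l) then ∏ m, F m (f m) else 0) := by
          apply Finset.sum_le_sum_of_subset_of_nonneg (Finset.subset_univ _)
          intro f _ _
          have hnn : 0 ≤ ∏ m, F m (f m) := Finset.prod_nonneg (fun j _ => hF j _)
          refine Finset.sum_nonneg fun j _ => Finset.sum_nonneg fun l _ =>
            Finset.sum_nonneg fun t _ => by split_ifs <;> simp [hnn]
      _ = _ := by
          rw [Finset.sum_comm]
          refine Finset.sum_congr rfl fun j _ => ?_
          rw [Finset.sum_comm]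
          refine Finset.sum_congr rfl fun l _ => ?_
          rw [Finset.sum_comm]
          refine Finset.sum_congr rfl fun t _ => ?_
          rw [Finset.sum_filter]
  -- bound for each (j,l,t)
  have hone : ∀ j l : J, ∀ t : ι,
      ∑ f ∈ (univ : Finset (J → Finset ι)).filter (fun f => j ≠ l ∧ t ∈ f j ∧ t ∈ f l),
          ∏ m, F m (f m) ≤ β t ^ 2 * ∏ m, S m := by
    intro j l t
    by_cases hjl : j = l
    · have : (univ : Finset (J → Finset ι)).filter (fun f => j ≠ l ∧ t ∈ f j ∧ t ∈ f l) = ∅ := by
        apply Finset.filter_false_of_mem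
        intro f _ hh
        exact hh.1 hjl
      rw [this, Finset.sum_empty]
      exact mul_nonneg (sq_nonneg _) (Finset.prod_nonneg fun m _ => hS0 m)
    · set F' : J → Finset ι → ℝ := fun m a => if (m = j ∨ m = l) ∧ t ∉ a then 0 else F m a with hF'
      have e1 : ∑ f ∈ (univ : Finset (J → Finset ι)).filter (fun f => j ≠ l ∧ t ∈ f j ∧ t ∈ f l),
          ∏ m, F m (f m) = ∑ f : J → Finset ι, ∏ m, F' m (f m) := by
        rw [Finset.sum_filter]
        refine Finset.sum_congr rfl fun f _ => ?_
        split_ifs with hc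
        · refine Finset.prod_congr rfl fun m _ => ?_
          simp only [hF']
          rw [if_neg]
          rintro ⟨h1 | h1, h2⟩
          · subst h1; exact h2 hc.2.1
          · subst h1; exact h2 hc.2.2
        · have : t ∉ f j ∨ t ∉ f l := by
            by_contra hcon
            push Not at hcon
            exact hc ⟨hjl, hcon.1, hcon.2⟩
          rcases this with h1 | h1
          · symm
            apply Finset.prod_eq_zero (Finset.mem_univ j)
            simp [hF', h1]
          · symm
            apply Finset.prod_eq_zero (Finset.mem_univ l)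
            simp [hF', h1]
      rw [e1, ← sum_tuple_eq]
      have e2 : ∀ m, ∑ a : Finset ι, F' m a ≤ (if m = j ∨ m = l then β t else 1) * S m := by
        intro m
        split_ifs with hm
        · calc ∑ a : Finset ι, F' m a = ∑ a ∈ univ.filter (fun a => t ∈ a), F m a := by
                rw [Finset.sum_filter]
                refine Finset.sum_congr rfl fun a _ => ?_
                simp only [hF']
                by_cases hta : t ∈ a
                · simp [hta]
                · simp [hta, hm]
            _ ≤ _ := h m t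
        · rw [one_mul]
          apply le_of_eq
          refine Finset.sum_congr rfl fun a _ => ?_
          simp [hF', hm]
      calc ∏ m, ∑ a : Finset ι, F' m a ≤ ∏ m, ((if m = j ∨ m = l then β t else 1) * S m) := by
            apply Finset.prod_le_prod
            · intro m _
              apply Finset.sum_nonneg
              intro a _
              simp only [hF']
              split_ifs
              · exact le_rfl
              · exact hF m a
            · intro m _
              exact e2 m
        _ = (∏ m, (if m = j ∨ m = l then β t else 1)) * ∏ m, S m := Finset.prod_mul_distrib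
        _ = β t ^ 2 * ∏ m, S m := by
            rw [Finset.prod_ite, Finset.prod_const, Finset.prod_const, one_pow, mul_one]
            have : (univ : Finset J).filter (fun m => m = j ∨ m = l) = {j, l} := by
              ext m; simp
            rw [this, Finset.card_pair hjl]
  have htot : ∑ j : J, ∑ l : J, ∑ t : ι,
        ∑ f ∈ (univ : Finset (J → Finset ι)).filter (fun f => j ≠ l ∧ t ∈ f j ∧ t ∈ f l),
          ∏ m, F m (f m) ≤ (Fintype.card J : ℝ) ^ 2 * (∑ t, β t ^ 2) * ∏ m, S m := by
    calc _ ≤ ∑ j : J, ∑ l : J, ∑ t : ι, β t ^ 2 * ∏ m, S m :=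
          Finset.sum_le_sum fun j _ => Finset.sum_le_sum fun l _ => Finset.sum_le_sum fun t _ =>
            hone j l t
      _ = _ := by
          simp only [Finset.sum_const, Finset.card_univ, nsmul_eq_mul, ← Finset.sum_mul]
          ring
  rw [h1]
  have := hcov
  rw [← h2] at this
  nlinarith [this, htot]

end tuple

end Pool.Agent.H410R2
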